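import Pool.Agent.E8helper21.Q2.Bas
import Pool.Agent.E8helper21.QT.Phi2

/-!
Q2D: the graph pieces GR1 and GR2.
-/

set_option autoImplicit false
set_option linter.unusedSectionVars false

namespace Pool.Agent.E8helper75.Q2

open Finset
open Pool.Agent.Y699 Pool.Agent.Y699.Ff
open Pool.Agent.E8helper21.Q2
open Pool.Agent.E8helper21.QT (Cls nD prP Ix pf row_eq row_eq' em_add em_star wt_prP sum_ix)

section GR1

variable {κ : Type} [Fintype κ] [DecidableEq κ]

lemma MM_empty (x : κ → ZMod 2) (e : κ → κ → ZMod 2) : (MM x e ∅ ∅).det = 1 := by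
  have h1 : MM x e ∅ ∅ = 1 := by
    ext i j
    unfold MM
    simp [Matrix.one_apply]
  rw [h1, Matrix.det_one]

lemma part1 (x : κ → ZMod 2) (e : κ → κ → ZMod 2) (he : ∀ v, e v v = 0) (V : Finset κ) :
    ∑ S ∈ V.powerset, (MM x e S S).det * ∏ v ∈ V \ S, (x v + ∑ u ∈ S, e u v) =
      if V.card = 0 then 1 else 0 := by
  by_cases hV : V.card = 0
  · rw [if_pos hV]
    rw [card_eq_zero] at hV
    rw [hV, powerset_empty, sum_singleton, MM_empty]
    simp
  · rw [if_neg hV, ← sum_det x e he V (card_pos.1 (Nat.pos_of_ne_zero hV))]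
    refine Finset.sum_congr rfl fun S hS => ?_
    rw [det_MM x e (mem_powerset.1 hS)]
    rfl

theorem gr1 (w : κ → ZMod 2) (e : κ → κ → ZMod 2) (he : ∀ v, e v v = 0) (V : Finset κ) :
    ∑ S ∈ V.powerset, NN w e S * ∏ v ∈ V \ S, (w v + ∑ u ∈ S, e u v) = RR w V := by
  unfold NN
  simp_rw [add_mul, sum_mul]
  rw [sum_add_distrib, part1 w e he V]
  have h1 : ∑ S ∈ V.powerset, ∑ r ∈ S, w r * (MM (fun v => w v + e r v) e (S.erase r)
        (S.erase r)).det * ∏ v ∈ V \ S, (w v + ∑ u ∈ S, e u v) =
      ∑ r ∈ V, ∑ S ∈ V.powerset.filter (fun S => r ∈ S),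
        w r * (MM (fun v => w v + e r v) e (S.erase r) (S.erase r)).det *
          ∏ v ∈ V \ S, (w v + ∑ u ∈ S, e u v) := by
    refine Finset.sum_comm' fun S r => ?_
    rw [mem_powerset, mem_filter, mem_powerset]
    constructor
    · rintro ⟨h1, h2⟩
      exact ⟨⟨h1, h2⟩, h1 h2⟩
    · rintro ⟨⟨h1, h2⟩, -⟩
      exact ⟨h1, h2⟩
  have h2 : ∀ r ∈ V, ∑ S ∈ V.powerset.filter (fun S => r ∈ S),
        w r * (MM (fun v => w v + e r v) e (S.erase r) (S.erase r)).det *
          ∏ v ∈ V \ S, (w v + ∑ u ∈ S, e u v) = w r * if (V.erase r).card = 0 then 1 else 0 := by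
    intro r hr
    rw [← part1 (fun v => w v + e r v) e he (V.erase r), mul_sum]
    refine Finset.sum_bij' (fun S _ => S.erase r) (fun J _ => insert r J) ?_ ?_ ?_ ?_ ?_
    · intro S hS
      rw [mem_filter, mem_powerset] at hS
      rw [mem_powerset]
      exact erase_subset_erase r hS.1
    · intro J hJ
      rw [mem_powerset] at hJ
      rw [mem_filter, mem_powerset]
      refine ⟨insert_subset hr (hJ.trans (erase_subset _ _)), mem_insert_self _ _⟩
    · intro S hS
      rw [mem_filter] at hS
      exact insert_erase hS.2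
    · intro J hJ
      rw [mem_powerset] at hJ
      exact erase_insert (fun h => (mem_erase.1 (hJ h)).1 rfl)
    · intro S hS
      rw [mem_filter, mem_powerset] at hS
      rw [mul_assoc]
      congr 2
      have h3 : V.erase r \ S.erase r = V \ S := by
        ext v
        simp only [mem_sdiff, mem_erase]
        constructor
        · rintro ⟨⟨h1, h2⟩, h3⟩
          exact ⟨h2, fun h => h3 ⟨h1, h⟩⟩
        · rintro ⟨h1, h2⟩
          exact ⟨⟨fun h => h2 (h ▸ hS.2), h1⟩, fun h => h2 h.2⟩
      rw [h3]
      refine Finset.prod_congr rfl fun v _ => ?_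
      rw [← Finset.add_sum_erase S (fun u => e u v) hS.2]
      ring
  rw [h1, Finset.sum_congr rfl h2]
  unfold RR
  by_cases h0 : V.card = 0
  · rw [if_pos h0, if_pos h0]
    rw [card_eq_zero] at h0
    rw [h0]
    simp
  · rw [if_neg h0, if_neg h0, zero_add]
    by_cases h3 : V.card = 1
    · rw [if_pos h3]
      refine Finset.sum_congr rfl fun r hr => ?_
      rw [if_pos (by rw [card_erase_of_mem hr]; omega), mul_one]
    · rw [if_neg h3]
      refine Finset.sum_eq_zero fun r hr => ?_
      rw [if_neg (by rw [card_erase_of_mem hr]; omega), mul_zero]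

/-- the kernel of the matrix -/
lemma vec_univ (w : κ → ZMod 2) (e : κ → κ → ZMod 2) (he : ∀ v, e v v = 0) (z : κ → ZMod 2)
    (v : κ) : Matrix.vecMul z (MM w e univ univ) v = ∑ u, e u v * (z u + z v) + w v * z v := by
  rw [Matrix.vecMul, dotProduct]
  have h4 : ∀ u, z u * MM w e univ univ u v = e u v * z u +
      (if u = v then (w v + ∑ u, e u v) * z v else 0) := by
    intro u
    unfold MM dg
    rw [if_pos (mem_univ v)]
    by_cases huv : u = v
    · subst huv
      rw [if_pos rfl, if_pos rfl, he]
      ring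
    · rw [if_neg huv, if_neg huv, if_pos (mem_univ u)]
      ring
  simp_rw [h4]
  rw [Finset.sum_add_distrib, Finset.sum_ite_eq', if_pos (mem_univ v)]
  simp_rw [mul_add]
  rw [Finset.sum_add_distrib, ← Finset.sum_mul]
  ring

lemma det_conj (w : κ → ZMod 2) (e : κ → κ → ZMod 2) (c : κ ≃ κ) (hw : ∀ v, w (c v) = w v)
    (hc : ∀ u v, e (c u) (c v) = e u v) (r : κ) :
    (MM (fun v => w v + e (c r) v) e (univ.erase (c r)) (univ.erase (c r))).det =
      (MM (fun v => w v + e r v) e (univ.erase r) (univ.erase r)).det := by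
  rw [← Matrix.det_submatrix_equiv_self c]
  congr 1
  ext u v
  rw [Matrix.submatrix_apply]
  have hmem : ∀ v, c v ∈ univ.erase (c r) ↔ v ∈ univ.erase r := by
    intro v
    simp [mem_erase]
  have hdg : dg (fun v => w v + e (c r) v) e (univ.erase (c r)) (c v) =
      dg (fun v => w v + e r v) e (univ.erase r) v := by
    unfold dg
    simp only [hw, hc]
    congr 1
    symm
    refine Finset.sum_equiv c (fun u => (hmem u).symm) fun u _ => (hc u v).symm
  unfold MM
  by_cases hv : v ∈ univ.erase r
  · rw [if_pos hv, if_pos ((hmem v).2 hv)]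
    by_cases huv : u = v
    · rw [if_pos huv, if_pos (by rw [huv]), hdg]
    · rw [if_neg huv, if_neg (fun h => huv (c.injective h)), hc]
      by_cases hu : u ∈ univ.erase r
      · rw [if_pos hu, if_pos ((hmem u).2 hu)]
      · rw [if_neg hu, if_neg (fun h => hu ((hmem u).1 h))]
  · rw [if_neg hv, if_neg (fun h => hv ((hmem v).1 h))]
    by_cases huv : u = v
    · rw [if_pos huv, if_pos (by rw [huv])]
    · rw [if_neg huv, if_neg (fun h => huv (c.injective h))]

end GR1

section GR2

variable {P : Finset ℕ}

/-- complex conjugation of the primes -/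
def cj (P : Finset ℕ) : Ix P ≃ Ix P where
  toFun v := (v.1, !v.2)
  invFun v := (v.1, !v.2)
  left_inv v := by simp
  right_inv v := by simp

lemma em_cj (hP : Cls P) (u v : Ix P) : em (prP P) (cj P u) (cj P v) = em (prP P) u v := by
  obtain ⟨p, a⟩ := u
  obtain ⟨q, b⟩ := v
  have h := em_star hP (p := p) (q := q)
  cases a <;> cases b
  · exact h.1
  · exact h.2
  · exact h.2.symm
  · exact h.1.symm

lemma wt_cj (hP : Cls P) (v : Ix P) : wt (prP P) (cj P v) = wt (prP P) v := by
  rw [wt_prP hP, wt_prP hP]
  rfl

theorem gr2 (hP : Cls P) : NN (wt (prP P)) (em (prP P)) univ = 1 ↔ K2 P := by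
  classical
  have he : ∀ v : Ix P, em (prP P) v v = 0 := em_self (pf hP)
  have e0 : ∀ t : ZMod 2, t + t = 0 := fun t => CharTwo.add_self_eq_zero t
  have h1 : NN (wt (prP P)) (em (prP P)) univ = (MM (wt (prP P)) (em (prP P)) univ univ).det := by
    unfold NN
    rw [sum_ix, Finset.sum_eq_zero, add_zero]
    intro p _
    have h2 := det_conj (wt (prP P)) (em (prP P)) (cj P) (wt_cj hP) (em_cj hP) (p, false)
    have h3 : cj P (p, false) = (p, true) := rfl
    rw [h3] at h2
    have h4 : wt (prP P) (p, true) = wt (prP P) (p, false) := wt_cj hP (p, false)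
    rw [h2, h4]
    exact e0 _
  rw [h1]
  have hdet : (MM (wt (prP P)) (em (prP P)) univ univ).det = 1 ↔
      ∀ z : Ix P → ZMod 2, Matrix.vecMul z (MM (wt (prP P)) (em (prP P)) univ univ) = 0 → z = 0 := by
    constructor
    · intro h z hz
      by_contra hne
      have := Matrix.exists_vecMul_eq_zero_iff.1 ⟨z, hne, hz⟩
      rw [h] at this
      exact absurd this (by decide)
    · intro h
      by_contra hne
      have h0 : (MM (wt (prP P)) (em (prP P)) univ univ).det = 0 := by
        have : ∀ a : ZMod 2, a ≠ 1 → a = 0 := by decide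
        exact this _ hne
      obtain ⟨y, hy0, hy⟩ := Matrix.exists_vecMul_eq_zero_iff.2 h0
      exact hy0 (h y hy)
  rw [hdet]
  have hvec : ∀ (z : Ix P → ZMod 2), Matrix.vecMul z (MM (wt (prP P)) (em (prP P)) univ univ) = 0 ↔
      ∀ v, ∑ u, em (prP P) u v * (z u + z v) + wt (prP P) v * z v = 0 := by
    intro z
    rw [funext_iff]
    refine forall_congr' fun v => ?_
    rw [vec_univ _ _ he, Pi.zero_apply]
  constructor
  · intro h y hy q
    have h2 := h (fun v => y v.1) ((hvec _).2 fun v => by
      obtain ⟨q, b⟩ := v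
      have key := hy q
      cases b
      · rw [row_eq hP, wt_prP hP]
        simp only [e0, mul_zero, add_zero]
        refine Eq.trans ?_ key
        congr 1
        refine Finset.sum_congr rfl fun r _ => ?_
        by_cases hr : r = q
        · rw [if_pos hr, if_pos hr, zero_mul]
        · rw [if_neg hr, if_neg hr, ← em_add hP hr]
          ring
      · rw [row_eq' hP, wt_prP hP, wt_prP hP]
        simp only [e0, mul_zero, add_zero]
        refine Eq.trans ?_ key
        congr 1
        refine Finset.sum_congr rfl fun r _ => ?_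
        by_cases hr : r = q
        · rw [if_pos hr, if_pos hr, zero_mul]
        · rw [if_neg hr, if_neg hr, ← em_add hP hr]
          ring)
    exact congrFun h2 (q, false)
  · intro hK z hz
    rw [hvec] at hz
    have hwt : ∀ q : {p // p ∈ P}, wt (prP P) (q, true) = wt (prP P) (q, false) :=
      fun q => wt_cj hP (q, false)
    have hx : ∀ q, z (q, false) + z (q, true) = 0 := by
      refine hK (fun q => z (q, false) + z (q, true)) fun q => ?_
      have h1 := hz (q, false)
      have h2 := hz (q, true)
      rw [row_eq hP] at h1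
      rw [row_eq' hP, hwt] at h2
      have h3 : (if (q : ℕ) % 8 = 5 then (1 : ZMod 2) else 0) = wt (prP P) (q, false) := by
        rw [wt_prP hP]
      rw [h3]
      have h4 : ∑ p : {p // p ∈ P}, (if p = q then 0 else Pool.Agent.E8helper21.QT.ns p q) *
            (z (p, false) + z (p, true) + (z (q, false) + z (q, true))) =
          ∑ p : {p // p ∈ P}, (if p = q then 0 else
            em (prP P) (p, false) (q, false) * (z (p, false) + z (q, false)) +
            em (prP P) (p, true) (q, false) * (z (p, true) + z (q, false))) +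
          ∑ p : {p // p ∈ P}, (if p = q then 0 else
            em (prP P) (p, true) (q, false) * (z (p, false) + z (q, true)) +
            em (prP P) (p, false) (q, false) * (z (p, true) + z (q, true))) := by
        rw [← Finset.sum_add_distrib]
        refine Finset.sum_congr rfl fun r _ => ?_
        by_cases hr : r = q
        · rw [if_pos hr, if_pos hr, if_pos hr]
          ring
        · rw [if_neg hr, if_neg hr, if_neg hr, ← em_add hP hr]
          ring
      rw [h4]
      have h5 := e0 (wt (prP P) (q, false) * z (q, true))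
      have h6 := e0 (wt (prP P) (q, false) * z (q, false))
      linear_combination h1 + h2 - h5 - h6
    have hxe : ∀ q, z (q, true) = z (q, false) := fun q => (CharTwo.add_eq_zero.1 (hx q)).symm
    have hy : ∀ q, z (q, false) = 0 := by
      refine hK (fun q => z (q, false)) fun q => ?_
      have h1 := hz (q, false)
      rw [row_eq hP, hxe, e0, mul_zero, add_zero, wt_prP hP] at h1
      refine Eq.trans ?_ h1
      congr 1
      refine Finset.sum_congr rfl fun r _ => ?_
      by_cases hr : r = q
      · rw [if_pos hr, if_pos hr, zero_mul]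
      · rw [if_neg hr, if_neg hr, ← em_add hP hr, hxe]
        ring
    funext v
    obtain ⟨q, b⟩ := v
    cases b
    · exact hy q
    · rw [hxe]
      exact hy q

end GR2

end Pool.Agent.E8helper75.Q2
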